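import Mathlib
import Pool.Agent.Q35.EOW.Stm

/-!
Project EOW: uniformly continuous functions are uniform limits of Lipschitz weights.
-/

set_option autoImplicit false

namespace Pool.Agent.Q224.EOW

open Finset Function NumberField
open Pool.Agent.Q35.EOW (nv dS LipW)
open Pool.Agent.Q35.SM (Vs)

section

variable {K : Type} [Field K] {m : ℕ}

theorem nv_nonneg (w : AbsoluteValue K ℝ) (x : Fin m → K) : 0 ≤ nv w x :=
  Real.iSup_nonneg fun a => w.nonneg (x a)

theorem le_nv (w : AbsoluteValue K ℝ) (x : Fin m → K) (a : Fin m) : w (x a) ≤ nv w x :=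
  le_ciSup (f := fun a => w (x a)) (Set.finite_range _).bddAbove a

theorem nv_le {w : AbsoluteValue K ℝ} {x : Fin m → K} {t : ℝ} (ht : 0 ≤ t)
    (h : ∀ a, w (x a) ≤ t) : nv w x ≤ t := Real.iSup_le h ht

theorem nv_zero (w : AbsoluteValue K ℝ) : nv w (0 : Fin m → K) = 0 :=
  le_antisymm (nv_le le_rfl fun a => by simp) (nv_nonneg _ _)

theorem nv_smul (w : AbsoluteValue K ℝ) (c : K) (x : Fin m → K) :
    nv w (c • x) = w c * nv w x := by
  unfold nv
  rw [Real.mul_iSup_of_nonneg (w.nonneg c)]
  simp

theorem nv_add_le (w : AbsoluteValue K ℝ) (x y : Fin m → K) : nv w (x + y) ≤ nv w x + nv w y :=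
  nv_le (add_nonneg (nv_nonneg _ _) (nv_nonneg _ _)) fun a =>
    (w.add_le _ _).trans (add_le_add (le_nv w x a) (le_nv w y a))

theorem nv_pos (w : AbsoluteValue K ℝ) {x : Fin m → K} (hx : x ≠ 0) : 0 < nv w x := by
  obtain ⟨a, ha⟩ := Function.ne_iff.1 hx
  exact lt_of_lt_of_le (w.pos ha) (le_nv w x a)

theorem nv_neg (w : AbsoluteValue K ℝ) (x : Fin m → K) : nv w (-x) = nv w x := by
  unfold nv
  simp

/-- The relative distance. -/
noncomputable def rd (w : AbsoluteValue K ℝ) (x y : Fin m → K) : ℝ := nv w (x - y) / nv w x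

theorem rd_nonneg (w : AbsoluteValue K ℝ) (x y : Fin m → K) : 0 ≤ rd w x y :=
  div_nonneg (nv_nonneg _ _) (nv_nonneg _ _)

theorem rd_self (w : AbsoluteValue K ℝ) (x : Fin m → K) : rd w x x = 0 := by
  unfold rd
  rw [sub_self, nv_zero, zero_div]

theorem rd_smul (w : AbsoluteValue K ℝ) {c : K} (hc : c ≠ 0) (x y : Fin m → K) :
    rd w (c • x) (c • y) = rd w x y := by
  unfold rd
  rw [← smul_sub, nv_smul, nv_smul]
  exact mul_div_mul_left _ _ (w.pos hc).ne'

theorem nv_sub_eq (w : AbsoluteValue K ℝ) {x : Fin m → K} (hx : x ≠ 0) (y : Fin m → K) :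
    nv w (x - y) = rd w x y * nv w x := by
  unfold rd
  rw [div_mul_cancel₀ _ (nv_pos w hx).ne']

theorem rd_le1 (w : AbsoluteValue K ℝ) {x y : Fin m → K} (hx : x ≠ 0) (hy : y ≠ 0)
    (q : Fin m → K) (hu : rd w x y ≤ 1 / 2) (hq : rd w x q ≤ 1) :
    rd w y q ≤ rd w x q + 4 * rd w x y := by
  have hX := nv_pos w hx
  have hY := nv_pos w hy
  set u := rd w x y with hu'
  set A := rd w x q with hA
  have hu0 : 0 ≤ u := rd_nonneg _ _ _
  have hA0 : 0 ≤ A := rd_nonneg _ _ _
  have e1 : nv w (x - y) = u * nv w x := nv_sub_eq w hx y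
  have e2 : nv w (x - q) = A * nv w x := nv_sub_eq w hx q
  have e3 : nv w x ≤ nv w y + nv w (x - y) := by
    have := nv_add_le w y (x - y)
    rwa [add_sub_cancel] at this
  have e4 : nv w (y - q) ≤ nv w (x - q) + nv w (x - y) := by
    have := nv_add_le w (x - q) (-(x - y))
    rw [nv_neg] at this
    have e : x - q + -(x - y) = y - q := by ring
    rwa [e] at this
  rw [rd, div_le_iff₀ hY]
  rw [e1] at e3 e4
  rw [e2] at e4
  have e5 : (1 - u) * nv w x ≤ nv w y := by linarith
  calc nv w (y - q) ≤ (A + u) * nv w x := by linarith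
    _ ≤ ((A + 4 * u) * (1 - u)) * nv w x := by
        refine mul_le_mul_of_nonneg_right ?_ hX.le
        nlinarith
    _ = (A + 4 * u) * ((1 - u) * nv w x) := by ring
    _ ≤ (A + 4 * u) * nv w y := mul_le_mul_of_nonneg_left e5 (by positivity)

theorem rd_le2 (w : AbsoluteValue K ℝ) {x y : Fin m → K} (hx : x ≠ 0) (hy : y ≠ 0)
    (q : Fin m → K) (hq : rd w y q ≤ 1) :
    rd w x q ≤ rd w y q + 2 * rd w x y := by
  have hX := nv_pos w hx
  have hY := nv_pos w hy
  set u := rd w x y with hu'
  set A := rd w y q with hA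
  have hu0 : 0 ≤ u := rd_nonneg _ _ _
  have hA0 : 0 ≤ A := rd_nonneg _ _ _
  have e1 : nv w (x - y) = u * nv w x := nv_sub_eq w hx y
  have e2 : nv w (y - q) = A * nv w y := nv_sub_eq w hy q
  have e3 : nv w y ≤ nv w x + nv w (x - y) := by
    have := nv_add_le w x (-(x - y))
    rw [nv_neg] at this
    have e : x + -(x - y) = y := by ring
    rwa [e] at this
  have e4 : nv w (x - q) ≤ nv w (y - q) + nv w (x - y) := by
    have := nv_add_le w (y - q) (x - y)
    have e : y - q + (x - y) = x - q := by ring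
    rwa [e] at this
  rw [rd, div_le_iff₀ hX]
  rw [e1] at e3 e4
  rw [e2] at e4
  have e5 : A * nv w y ≤ A * ((1 + u) * nv w x) :=
    mul_le_mul_of_nonneg_left (by linarith) hA0
  have e6 : A * ((1 + u) * nv w x) + u * nv w x ≤ (A + 2 * u) * nv w x := by
    have : A * (1 + u) + u ≤ A + 2 * u := by nlinarith
    calc A * ((1 + u) * nv w x) + u * nv w x = (A * (1 + u) + u) * nv w x := by ring
      _ ≤ _ := mul_le_mul_of_nonneg_right this hX.le
  linarith

variable [NumberField K] (S : Finset (FinitePlace K))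

theorem dS_eq (x y : Fin m → K) :
    dS S x y = ∑ v : InfinitePlace K, rd v.1 x y + ∑ v ∈ S, rd v.1 x y := rfl

theorem dS_nonneg (x y : Fin m → K) : 0 ≤ dS S x y := by
  rw [dS_eq]
  exact add_nonneg (sum_nonneg fun v _ => rd_nonneg _ _ _) (sum_nonneg fun v _ => rd_nonneg _ _ _)

theorem dS_self (x : Fin m → K) : dS S x x = 0 := by
  rw [dS_eq]
  simp [rd_self]

theorem dS_smul {c : K} (hc : c ≠ 0) (x y : Fin m → K) : dS S (c • x) (c • y) = dS S x y := by
  rw [dS_eq, dS_eq]
  simp only [rd_smul _ hc]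

theorem rd_inf_le (v : InfinitePlace K) (x y : Fin m → K) : rd v.1 x y ≤ dS S x y := by
  rw [dS_eq]
  have h1 : rd v.1 x y ≤ ∑ v : InfinitePlace K, rd v.1 x y :=
    single_le_sum (f := fun v : InfinitePlace K => rd v.1 x y)
      (fun v _ => rd_nonneg _ _ _) (mem_univ v)
  have h2 : 0 ≤ ∑ v ∈ S, rd v.1 x y := sum_nonneg fun v _ => rd_nonneg _ _ _
  linarith

theorem rd_fin_le {v : FinitePlace K} (hv : v ∈ S) (x y : Fin m → K) :
    rd v.1 x y ≤ dS S x y := by
  rw [dS_eq]
  have h1 : rd v.1 x y ≤ ∑ v ∈ S, rd v.1 x y :=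
    single_le_sum (f := fun v : FinitePlace K => rd v.1 x y)
      (fun v _ => rd_nonneg _ _ _) hv
  have h2 : 0 ≤ ∑ v : InfinitePlace K, rd v.1 x y := sum_nonneg fun v _ => rd_nonneg _ _ _
  linarith

theorem dS_le1 {x y : Fin m → K} (hx : x ≠ 0) (hy : y ≠ 0) (q : Fin m → K)
    (hu : dS S x y ≤ 1 / 2) (hq : dS S x q ≤ 1) : dS S y q ≤ dS S x q + 4 * dS S x y := by
  have h1 : ∑ v : InfinitePlace K, rd v.1 y q ≤
      ∑ v : InfinitePlace K, (rd v.1 x q + 4 * rd v.1 x y) := sum_le_sum fun v _ =>
    rd_le1 v.1 hx hy q ((rd_inf_le S v x y).trans hu) ((rd_inf_le S v x q).trans hq)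
  have h2 : ∑ v ∈ S, rd v.1 y q ≤ ∑ v ∈ S, (rd v.1 x q + 4 * rd v.1 x y) := sum_le_sum fun v hv =>
    rd_le1 v.1 hx hy q ((rd_fin_le S hv x y).trans hu) ((rd_fin_le S hv x q).trans hq)
  rw [sum_add_distrib, ← mul_sum] at h1 h2
  rw [dS_eq, dS_eq, dS_eq]
  linarith

theorem dS_le2 {x y : Fin m → K} (hx : x ≠ 0) (hy : y ≠ 0) (q : Fin m → K)
    (hq : dS S y q ≤ 1) : dS S x q ≤ dS S y q + 2 * dS S x y := by
  have h1 : ∑ v : InfinitePlace K, rd v.1 x q ≤
      ∑ v : InfinitePlace K, (rd v.1 y q + 2 * rd v.1 x y) := sum_le_sum fun v _ =>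
    rd_le2 v.1 hx hy q ((rd_inf_le S v y q).trans hq)
  have h2 : ∑ v ∈ S, rd v.1 x q ≤ ∑ v ∈ S, (rd v.1 y q + 2 * rd v.1 x y) := sum_le_sum fun v hv =>
    rd_le2 v.1 hx hy q ((rd_fin_le S hv y q).trans hq)
  rw [sum_add_distrib, ← mul_sum] at h1 h2
  rw [dS_eq, dS_eq, dS_eq]
  linarith

end

theorem apx : Pool.Agent.Q35.EOW.S_APX := by
  intro K _ _ ι _ _ n Z f S hZa hZ0 hf0 hf1 hfa huc ε hε
  classical
  obtain ⟨δ, hδ, huc⟩ := huc ε hε
  set L : ℝ := max 1 (1 / δ) with hL
  have hL1 : 1 ≤ L := le_max_left _ _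
  have hL0 : 0 < L := by linarith
  have hLδ : 1 ≤ L * δ := by
    have : 1 / δ ≤ L := le_max_right _ _
    rwa [div_le_iff₀ hδ] at this
  set D : Vs K n → Vs K n → ℝ := fun P Q => ∑ l, dS S (P l) (Q l) with hD
  have hD0 : ∀ P Q, 0 ≤ D P Q := fun P Q => sum_nonneg fun l _ => dS_nonneg S _ _
  set T : Vs K n → Vs K n → ℝ := fun P Q => if Z Q then min 1 (f Q + L * D P Q) else 1 with hT
  have hT1 : ∀ P Q, T P Q ≤ 1 := by
    intro P Q
    simp only [hT]
    split_ifs
    · exact min_le_left _ _
    · exact le_rfl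
  have hT0 : ∀ P Q, 0 ≤ T P Q := by
    intro P Q
    simp only [hT]
    split_ifs with h
    · exact le_min zero_le_one (add_nonneg (hf0 Q h) (mul_nonneg hL0.le (hD0 _ _)))
    · exact zero_le_one
  set W : Vs K n → ℝ := fun P => ⨅ Q, T P Q with hW
  have hWle : ∀ P Q, W P ≤ T P Q := fun P Q =>
    ciInf_le ⟨0, by rintro _ ⟨Q, rfl⟩; exact hT0 P Q⟩ Q
  have hleW : ∀ (P : Vs K n) (c : ℝ), (∀ Q, c ≤ T P Q) → c ≤ W P := fun P c h => le_ciInf h
  have hW0 : ∀ P, 0 ≤ W P := fun P => hleW P 0 (hT0 P)
  have hW1 : ∀ P, W P ≤ 1 := fun P => (hWle P P).trans (hT1 P P)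
  -- invariance
  have hinv1 : ∀ (a : ι → K) (P : Vs K n), (∀ i, a i ≠ 0) → W (fun i => a i • P i) ≤ W P := by
    intro a P ha
    refine hleW P _ fun Q => (hWle _ (fun i => a i • Q i)).trans ?_
    have e1 : D (fun i => a i • P i) (fun i => a i • Q i) = D P Q :=
      sum_congr rfl fun l _ => dS_smul S (ha l) _ _
    by_cases hQ : Z Q
    · simp only [hT]
      rw [if_pos (hZa a ha Q hQ), if_pos hQ, e1, hfa a ha Q hQ]
    · have : T P Q = 1 := by simp only [hT]; rw [if_neg hQ]
      rw [this]
      exact hT1 _ _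
  have hinv : ∀ (a : ι → K) (P : Vs K n), (∀ i, a i ≠ 0) → W (fun i => a i • P i) = W P := by
    intro a P ha
    refine le_antisymm (hinv1 a P ha) ?_
    have h2 := hinv1 (fun i => (a i)⁻¹) (fun i => a i • P i) fun i => inv_ne_zero (ha i)
    have e : (fun i => (a i)⁻¹ • a i • P i) = P := by
      funext i
      rw [smul_smul, inv_mul_cancel₀ (ha i), one_smul]
    simp only [e] at h2
    exact h2
  refine ⟨4 * L, W, by positivity, ⟨hW0, hW1, hinv, ?_⟩, ?_⟩
  · -- the Lipschitz condition
    intro P i y hPi hy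
    set U := dS S (P i) y with hU
    have hU0 : 0 ≤ U := dS_nonneg S _ _
    rcases le_or_gt U (1 / 2) with hU2 | hU2
    · have eD : ∀ Q, D P Q = dS S (P i) (Q i) + ∑ l ∈ univ.erase i, dS S (P l) (Q l) := by
        intro Q
        exact (add_sum_erase univ (fun l => dS S (P l) (Q l)) (mem_univ i)).symm
      have eD' : ∀ Q, D (update P i y) Q =
          dS S y (Q i) + ∑ l ∈ univ.erase i, dS S (P l) (Q l) := by
        intro Q
        have e1 := (add_sum_erase univ (fun l => dS S (update P i y l) (Q l)) (mem_univ i)).symm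
        rw [update_self] at e1
        refine e1.trans ?_
        congr 1
        refine sum_congr rfl fun l hl => ?_
        rw [update_of_ne (ne_of_mem_erase hl)]
      have hrest : ∀ Q : Vs K n, 0 ≤ ∑ l ∈ univ.erase i, dS S (P l) (Q l) := fun Q =>
        sum_nonneg fun l _ => dS_nonneg S _ _
      have hsmall : ∀ (Q : Vs K n) (t : ℝ), 0 ≤ f Q → f Q + L * t < 1 → 0 ≤ t → t ≤ 1 := by
        intro Q t h1 h2 h3
        by_contra hcon
        push Not at hcon
        have : 1 < L * t := lt_of_lt_of_le hcon (le_mul_of_one_le_left h3 hL1)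
        linarith
      have c1 : ∀ Q, T (update P i y) Q ≤ T P Q + 4 * L * U := by
        intro Q
        have hp : 0 ≤ 4 * L * U := by positivity
        by_cases hQ : Z Q
        · have eT : T P Q = min 1 (f Q + L * D P Q) := by simp only [hT]; rw [if_pos hQ]
          have eT' : T (update P i y) Q = min 1 (f Q + L * D (update P i y) Q) := by
            simp only [hT]; rw [if_pos hQ]
          rcases le_or_gt 1 (f Q + L * D P Q) with h | h
          · have := hT1 (update P i y) Q
            rw [eT, min_eq_left h]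
            linarith
          · rw [eT, min_eq_right h.le, eT']
            refine (min_le_right _ _).trans ?_
            have hs := hsmall Q _ (hf0 Q hQ) h (hD0 P Q)
            rw [eD] at hs
            have hq : dS S (P i) (Q i) ≤ 1 := by linarith [hrest Q]
            have h1 := dS_le1 S hPi hy (Q i) hU2 hq
            rw [eD, eD']
            have h2 := mul_le_mul_of_nonneg_left h1 hL0.le
            rw [← hU] at h2
            nlinarith [h2]
        · have : T P Q = 1 := by simp only [hT]; rw [if_neg hQ]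
          rw [this]
          linarith [hT1 (update P i y) Q]
      have c2 : ∀ Q, T P Q ≤ T (update P i y) Q + 4 * L * U := by
        intro Q
        have hp : 0 ≤ 4 * L * U := by positivity
        by_cases hQ : Z Q
        · have eT : T P Q = min 1 (f Q + L * D P Q) := by simp only [hT]; rw [if_pos hQ]
          have eT' : T (update P i y) Q = min 1 (f Q + L * D (update P i y) Q) := by
            simp only [hT]; rw [if_pos hQ]
          rcases le_or_gt 1 (f Q + L * D (update P i y) Q) with h | h
          · have := hT1 P Q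
            rw [eT', min_eq_left h]
            linarith
          · rw [eT', min_eq_right h.le, eT]
            refine (min_le_right _ _).trans ?_
            have hs := hsmall Q _ (hf0 Q hQ) h (hD0 _ Q)
            rw [eD'] at hs
            have hq : dS S y (Q i) ≤ 1 := by linarith [hrest Q]
            have h1 := dS_le2 S hPi hy (Q i) hq
            rw [eD, eD']
            have h2 := mul_le_mul_of_nonneg_left h1 hL0.le
            rw [← hU] at h2
            have h3 : 0 ≤ L * U := by positivity
            nlinarith [h2]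
        · have : T (update P i y) Q = 1 := by simp only [hT]; rw [if_neg hQ]
          rw [this]
          linarith [hT1 P Q]
      rw [abs_le]
      constructor
      · have : W (update P i y) - 4 * L * U ≤ W P :=
          hleW P _ fun Q => by linarith [hWle (update P i y) Q, c1 Q]
        linarith
      · have : W P - 4 * L * U ≤ W (update P i y) :=
          hleW _ _ fun Q => by linarith [hWle P Q, c2 Q]
        linarith
    · have h1 : |W P - W (update P i y)| ≤ 1 := by
        rw [abs_le]
        constructor <;> linarith [hW0 P, hW1 P, hW0 (update P i y), hW1 (update P i y)]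
      refine h1.trans ?_
      have h2 : L * (1 / 2) ≤ L * U := mul_le_mul_of_nonneg_left hU2.le hL0.le
      linarith
  · -- the approximation
    intro P hP
    have hup : W P ≤ f P := by
      refine (hWle P P).trans ?_
      have e1 : D P P = 0 := sum_eq_zero fun l _ => dS_self S _
      have eT : T P P = min 1 (f P + L * D P P) := by simp only [hT]; rw [if_pos hP]
      rw [eT, e1, mul_zero, add_zero]
      exact min_le_right _ _
    have hlo : f P - ε ≤ W P := by
      refine hleW P _ fun Q => ?_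
      by_cases hQ : Z Q
      · have eT : T P Q = min 1 (f Q + L * D P Q) := by simp only [hT]; rw [if_pos hQ]
        rcases le_or_gt 1 (f Q + L * D P Q) with h | h
        · rw [eT, min_eq_left h]
          linarith [hf1 P hP]
        · rw [eT, min_eq_right h.le]
          have h1 : L * D P Q < 1 := by linarith [hf0 Q hQ]
          have h2 : D P Q ≤ δ := by
            by_contra hcon
            push Not at hcon
            have := mul_le_mul_of_nonneg_left hcon.le hL0.le
            linarith
          have h3 : ∀ i, dS S (P i) (Q i) ≤ δ := fun i =>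
            (single_le_sum (f := fun l => dS S (P l) (Q l)) (fun l _ => dS_nonneg S _ _)
              (mem_univ i)).trans h2
          have h4 : |f P - f Q| ≤ ε := by
            refine huc P Q hP hQ (fun i v => ?_) fun i v hv => ?_
            · have h5 := (rd_inf_le S v (P i) (Q i)).trans (h3 i)
              have h6 := nv_pos v.1 (hZ0 P hP i)
              unfold rd at h5
              rw [div_le_iff₀ h6] at h5
              exact h5
            · have h5 := (rd_fin_le S hv (P i) (Q i)).trans (h3 i)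
              have h6 := nv_pos v.1 (hZ0 P hP i)
              unfold rd at h5
              rw [div_le_iff₀ h6] at h5
              exact h5
          have h5 : 0 ≤ L * D P Q := mul_nonneg hL0.le (hD0 _ _)
          linarith [(abs_le.1 h4).2]
      · have : T P Q = 1 := by simp only [hT]; rw [if_neg hQ]
        rw [this]
        linarith [hf1 P hP]
    rw [abs_le]
    constructor <;> linarith

end Pool.Agent.Q224.EOW
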