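import Mathlib
import Pool.Agent.Q35.EOW.Stm

/-!
Project EOW: from asymptotic formulas for weighted sums to asymptotic formulas for heights `H * Ψ`.
-/

set_option autoImplicit false

namespace Pool.Agent.Q224.EOW

open Filter Topology Finset

/-- A function which is squeezed between functions with close limits converges. -/
theorem exists_lim {f : ℝ → ℝ}
    (h : ∀ ε : ℝ, 0 < ε → ∃ (lo up : ℝ → ℝ) (l u : ℝ), Tendsto lo atTop (𝓝 l) ∧
      Tendsto up atTop (𝓝 u) ∧ (∀ᶠ B in atTop, lo B ≤ f B ∧ f B ≤ up B) ∧ u - l ≤ ε) :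
    ∃ c, Tendsto f atTop (𝓝 c) := by
  rw [← cauchy_map_iff_exists_tendsto, Metric.cauchy_iff]
  refine ⟨inferInstance, fun ε hε => ?_⟩
  obtain ⟨lo, up, l, u, hl, hu, hlu, hd⟩ := h (ε / 4) (by positivity)
  refine ⟨Set.Ioo (l - ε / 4) (u + ε / 4), ?_, ?_⟩
  · have h1 : ∀ᶠ B in atTop, l - ε / 4 < lo B := hl.eventually (lt_mem_nhds (by linarith))
    have h2 : ∀ᶠ B in atTop, up B < u + ε / 4 := hu.eventually (gt_mem_nhds (by linarith))
    change ∀ᶠ B in atTop, f B ∈ Set.Ioo (l - ε / 4) (u + ε / 4)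
    filter_upwards [h1, h2, hlu] with B a b c
    exact ⟨by linarith [c.1], by linarith [c.2]⟩
  · rintro x ⟨hx1, hx2⟩ y ⟨hy1, hy2⟩
    rw [Real.dist_eq, abs_lt]
    constructor <;> linarith

theorem lim_scale (L : ℕ) {a : ℝ} (ha : 0 < a) :
    Tendsto (fun B : ℝ => (B / a * Real.log (B / a) ^ L) / (B * Real.log B ^ L)) atTop
      (𝓝 (1 / a)) := by
  have h0 : Tendsto (fun B : ℝ => Real.log a / Real.log B) atTop (𝓝 0) :=
    tendsto_const_nhds.div_atTop Real.tendsto_log_atTop
  have h1 : Tendsto (fun B : ℝ => 1 / a * (1 - Real.log a / Real.log B) ^ L) atTop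
      (𝓝 (1 / a * (1 - 0) ^ L)) := ((tendsto_const_nhds.sub h0).pow L).const_mul _
  rw [sub_zero, one_pow, mul_one] at h1
  refine h1.congr' ?_
  filter_upwards [eventually_gt_atTop 1] with B hB
  have hl : 0 < Real.log B := Real.log_pos hB
  have hB0 : 0 < B := by linarith
  rw [Real.log_div hB0.ne' ha.ne']
  have e1 : 1 - Real.log a / Real.log B = (Real.log B - Real.log a) / Real.log B := by
    field_simp
  rw [e1, div_pow]
  field_simp

theorem lim_comp {S : ℝ → ℝ} {L : ℕ} {c a : ℝ} (ha : 0 < a)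
    (h : Tendsto (fun B : ℝ => S B / (B * Real.log B ^ L)) atTop (𝓝 c)) :
    Tendsto (fun B : ℝ => S (B / a) / (B * Real.log B ^ L)) atTop (𝓝 (c / a)) := by
  have h1 : Tendsto (fun B : ℝ => B / a) atTop atTop := tendsto_id.atTop_div_const ha
  have h2 := (h.comp h1).mul (lim_scale L ha)
  rw [mul_one_div] at h2
  refine h2.congr' ?_
  filter_upwards [eventually_gt_atTop a, eventually_gt_atTop 1] with B hB hB1
  have hl : 0 < Real.log (B / a) := Real.log_pos (by rwa [one_lt_div ha])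
  have hl' : 0 < Real.log B := Real.log_pos hB1
  have hB0 : 0 < B := by linarith
  simp only [Function.comp_apply]
  field_simp

theorem N_pos {L : ℕ} {B : ℝ} (hB : 1 < B) : 0 < B * Real.log B ^ L :=
  mul_pos (by linarith) (pow_pos (Real.log_pos hB) _)

section

variable {Y : Type} {H Ψ : Y → ℝ} {L : ℕ} {c₁ : ℝ}

theorem step1 (hf : ∀ B : ℝ, {y | H y ≤ B}.Finite)
    (hw : ∀ g : ℝ → ℝ, (∃ Λ : ℝ, ∀ u v, |g u - g v| ≤ Λ * |u - v|) → (∀ u, 0 ≤ g u) →
      (∀ u, g u ≤ 1) → ∀ ε : ℝ, 0 < ε → ∃ (w : Y → ℝ) (c : ℝ), (∀ y, |w y - g (Ψ y)| ≤ ε) ∧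
        Tendsto (fun B : ℝ => (∑ᶠ y ∈ {y | H y ≤ B}, w y) / (B * Real.log B ^ L))
          atTop (𝓝 c))
    (h1 : Tendsto (fun B : ℝ => ((hf B).toFinset.card : ℝ) / (B * Real.log B ^ L)) atTop (𝓝 c₁))
    (hc : 0 < c₁) (g : ℝ → ℝ) (hg : ∃ Λ : ℝ, ∀ u v, |g u - g v| ≤ Λ * |u - v|)
    (hg0 : ∀ u, 0 ≤ g u) (hg1 : ∀ u, g u ≤ 1) :
    ∃ c : ℝ, Tendsto (fun B : ℝ => (∑ y ∈ (hf B).toFinset, g (Ψ y)) / (B * Real.log B ^ L))
      atTop (𝓝 c) := by
  refine exists_lim fun ε hε => ?_
  obtain ⟨w, c, hwg, hwc⟩ := hw g hg hg0 hg1 (ε / (2 * c₁)) (by positivity)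
  have hd : Tendsto (fun B : ℝ => (∑ y ∈ (hf B).toFinset, w y) / (B * Real.log B ^ L)) atTop
      (𝓝 c) := by
    refine hwc.congr fun B => ?_
    rw [finsum_mem_eq_finite_toFinset_sum w (hf B)]
  refine ⟨_, _, _, _, hd.sub (h1.const_mul (ε / (2 * c₁))), hd.add (h1.const_mul (ε / (2 * c₁))),
    ?_, ?_⟩
  · filter_upwards [eventually_gt_atTop 1] with B hB
    have hN := N_pos (L := L) hB
    have e1 : |∑ y ∈ (hf B).toFinset, w y - ∑ y ∈ (hf B).toFinset, g (Ψ y)| ≤
        ε / (2 * c₁) * (hf B).toFinset.card := by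
      rw [← sum_sub_distrib]
      refine (abs_sum_le_sum_abs _ _).trans ?_
      refine (sum_le_sum fun y _ => hwg y).trans ?_
      rw [sum_const, nsmul_eq_mul, mul_comm]
    rw [abs_le] at e1
    constructor
    · rw [← mul_div_assoc, ← sub_div]
      gcongr
      linarith [e1.2]
    · rw [← mul_div_assoc, ← add_div]
      gcongr
      linarith [e1.1]
  · apply le_of_eq
    field_simp
    ring

/-- The tent function with top in `i h`. -/
noncomputable def tent (h : ℝ) (i : ℕ) (u : ℝ) : ℝ := max 0 (1 - |u / h - i|)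

theorem tent_nonneg (h : ℝ) (i : ℕ) (u : ℝ) : 0 ≤ tent h i u := le_max_left _ _

theorem tent_le_one (h : ℝ) (i : ℕ) (u : ℝ) : tent h i u ≤ 1 :=
  max_le zero_le_one (by linarith [abs_nonneg (u / h - i)])

theorem tent_lip {h : ℝ} (hh : 0 < h) (i : ℕ) : ∃ Λ : ℝ, ∀ u v,
    |tent h i u - tent h i v| ≤ Λ * |u - v| := by
  refine ⟨1 / h, fun u v => ?_⟩
  unfold tent
  rw [max_comm 0 (1 - |u / h - i|), max_comm 0 (1 - |v / h - i|)]
  refine (abs_max_sub_max_le_abs _ _ _).trans ?_
  have e1 : 1 - |u / h - i| - (1 - |v / h - i|) = |v / h - i| - |u / h - i| := by ring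
  rw [e1]
  refine (abs_abs_sub_abs_le_abs_sub _ _).trans ?_
  have e2 : v / h - i - (u / h - i) = -((u - v) / h) := by ring
  rw [e2, abs_neg, abs_div, abs_of_pos hh]
  exact le_of_eq (by ring)

theorem tent_supp {h : ℝ} (hh : 0 < h) {i : ℕ} {u : ℝ} (ht : tent h i u ≠ 0) :
    ((i : ℝ) - 1) * h ≤ u ∧ u ≤ ((i : ℝ) + 1) * h := by
  have h1 : 0 < 1 - |u / h - i| := by
    by_contra hcon
    exact ht (max_eq_left (not_lt.1 hcon))
  have h2 : |u / h - i| < 1 := by linarith
  rw [abs_lt] at h2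
  have e : u = u / h * h := by field_simp
  constructor
  · rw [e]
    exact mul_le_mul_of_nonneg_right (by linarith [h2.1]) hh.le
  · rw [e]
    exact mul_le_mul_of_nonneg_right (by linarith [h2.2]) hh.le

theorem tent_sum {h : ℝ} (hh : 0 < h) {k : ℕ} {u : ℝ} (hu : 0 ≤ u) (huk : u < k * h) :
    ∑ i ∈ range (k + 1), tent h i u = 1 := by
  set x : ℝ := u / h with hx
  have hx0 : 0 ≤ x := div_nonneg hu hh.le
  have hxk : x < k := by rwa [hx, div_lt_iff₀ hh]
  set j : ℕ := ⌊x⌋₊ with hj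
  have hj1 : (j : ℝ) ≤ x := Nat.floor_le hx0
  have hj2 : x < j + 1 := Nat.lt_floor_add_one x
  have hjk : j < k := by
    have : (j : ℝ) < k := lt_of_le_of_lt hj1 hxk
    exact_mod_cast this
  have hsub : ({j, j + 1} : Finset ℕ) ⊆ range (k + 1) := by
    intro i hi
    simp only [mem_insert, mem_singleton] at hi
    rw [mem_range]
    omega
  rw [← sum_subset hsub, sum_pair (by omega)]
  · have e1 : tent h j u = 1 - (x - j) := by
      unfold tent
      rw [← hx, abs_of_nonneg (by linarith), max_eq_right (by linarith)]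
    have e2 : tent h (j + 1) u = x - j := by
      unfold tent
      rw [← hx]
      push_cast
      rw [abs_of_nonpos (by linarith), max_eq_right (by linarith)]
      ring
    rw [e1, e2]
    ring
  · intro i _ hi
    simp only [mem_insert, mem_singleton, not_or] at hi
    unfold tent
    rw [← hx]
    refine max_eq_left ?_
    rcases lt_or_gt_of_ne hi.1 with h1 | h1
    · have : (i : ℝ) + 1 ≤ j := by exact_mod_cast h1
      have h2 : (1 : ℝ) ≤ |x - i| := by
        rw [abs_of_nonneg (by linarith)]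
        linarith
      linarith
    · have h3 : j + 2 ≤ i := by omega
      have : (j : ℝ) + 2 ≤ i := by exact_mod_cast h3
      have h2 : (1 : ℝ) ≤ |x - i| := by
        rw [abs_of_nonpos (by linarith)]
        linarith
      linarith

end

theorem psi : Pool.Agent.Q35.EOW.S_PSI := by
  intro Y H Ψ L m M hm hΨm hΨM hf hw ⟨c₁, hc₁, h1⟩
  classical
  -- the upper bound is positive
  set M' : ℝ := max M m with hM'
  have hM'pos : 0 < M' := lt_of_lt_of_le hm (le_max_right _ _)
  have hΨM' : ∀ y, Ψ y ≤ M' := fun y => (hΨM y).trans (le_max_left _ _)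
  have hΨ0 : ∀ y, 0 < Ψ y := fun y => lt_of_lt_of_le hm (hΨm y)
  have hcard : ∀ B : ℝ, {y | H y ≤ B}.ncard = (hf B).toFinset.card := fun B =>
    Set.ncard_eq_toFinset_card _ (hf B)
  have h1' : Tendsto (fun B : ℝ => ((hf B).toFinset.card : ℝ) / (B * Real.log B ^ L)) atTop
      (𝓝 c₁) := by
    refine h1.congr fun B => ?_
    rw [hcard]
  -- finiteness for the height `H Ψ`
  have hsub : ∀ (a B : ℝ), 0 < a → 0 ≤ B → ∀ y, a ≤ Ψ y → H y * Ψ y ≤ B → H y ≤ B / a := by
    intro a B ha hB y hay hy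
    rcases le_or_gt 0 (H y) with h | h
    · rw [le_div_iff₀ ha]
      exact (mul_le_mul_of_nonneg_left hay h).trans hy
    · exact h.le.trans (div_nonneg hB ha.le)
  have hsup : ∀ (b B : ℝ), 0 < b → 0 ≤ B → ∀ y, Ψ y ≤ b → H y ≤ B / b → H y * Ψ y ≤ B := by
    intro b B hb hB y hby hy
    rcases le_or_gt 0 (H y) with h | h
    · refine (mul_le_mul_of_nonneg_left hby h).trans ?_
      rwa [le_div_iff₀ hb] at hy
    · exact (mul_nonpos_of_nonpos_of_nonneg h.le (hΨ0 y).le).trans hB
  have hfin' : ∀ B : ℝ, {y | H y * Ψ y ≤ B}.Finite := by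
    intro B
    refine (hf (max B 0 / m)).subset fun y hy => ?_
    exact hsub m (max B 0) hm (le_max_right _ _) y (hΨm y) (le_trans hy (le_max_left _ _))
  have hcard' : ∀ B : ℝ, {y | H y * Ψ y ≤ B}.ncard = (hfin' B).toFinset.card := fun B =>
    Set.ncard_eq_toFinset_card _ (hfin' B)
  -- convergence
  have hconv : ∃ c, Tendsto
      (fun B : ℝ => (({y | H y * Ψ y ≤ B}.ncard : ℕ) : ℝ) / (B * Real.log B ^ L)) atTop
      (𝓝 c) := by
    refine exists_lim fun ε hε => ?_
    set h : ℝ := ε * m ^ 2 / (2 * c₁) with hh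
    have hpos : 0 < h := by positivity
    obtain ⟨k, hk⟩ := exists_nat_gt (M' / h)
    have hk' : M' < k * h := by rwa [div_lt_iff₀ hpos] at hk
    have hstep : ∀ i : ℕ, ∃ c : ℝ, Tendsto (fun B : ℝ =>
        (∑ y ∈ (hf B).toFinset, tent h i (Ψ y)) / (B * Real.log B ^ L)) atTop (𝓝 c) := fun i =>
      step1 hf hw h1' hc₁ (tent h i) (tent_lip hpos i) (tent_nonneg h i) (tent_le_one h i)
    choose c hc using hstep
    have hc0 : ∀ i, 0 ≤ c i := by
      intro i
      refine ge_of_tendsto (hc i) ?_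
      filter_upwards [eventually_gt_atTop 1] with B hB
      exact div_nonneg (sum_nonneg fun y _ => tent_nonneg _ _ _) (N_pos hB).le
    have hpart : ∀ y, ∑ i ∈ range (k + 1), tent h i (Ψ y) = 1 := fun y =>
      tent_sum hpos (hΨ0 y).le ((hΨM' y).trans_lt hk')
    have hcsum : ∑ i ∈ range (k + 1), c i = c₁ := by
      have e1 : Tendsto (fun B : ℝ => ∑ i ∈ range (k + 1),
          (∑ y ∈ (hf B).toFinset, tent h i (Ψ y)) / (B * Real.log B ^ L)) atTop
          (𝓝 (∑ i ∈ range (k + 1), c i)) := tendsto_finsetSum _ fun i _ => hc i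
      refine tendsto_nhds_unique e1 (h1'.congr fun B => ?_)
      rw [← sum_div, sum_comm]
      congr 1
      rw [sum_congr rfl fun y _ => hpart y]
      simp
    -- the interval of the values of `Ψ` on the support of the tent
    set a : ℕ → ℝ := fun i => max (((i : ℝ) - 1) * h) m with ha
    have ham : ∀ i, m ≤ a i := fun i => le_max_right _ _
    have ha0 : ∀ i, 0 < a i := fun i => lt_of_lt_of_le hm (ham i)
    have hb0 : ∀ i, 0 < a i + 2 * h := fun i => by linarith [ha0 i]
    have hsa : ∀ i y, tent h i (Ψ y) ≠ 0 → a i ≤ Ψ y ∧ Ψ y ≤ a i + 2 * h := by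
      intro i y ht
      obtain ⟨h2, h3⟩ := tent_supp hpos ht
      refine ⟨max_le h2 (hΨm y), h3.trans ?_⟩
      have : ((i : ℝ) - 1) * h ≤ a i := le_max_left _ _
      linarith
    refine ⟨_, _, _, _, tendsto_finsetSum (range (k + 1)) fun i _ => lim_comp (hb0 i) (hc i),
      tendsto_finsetSum (range (k + 1)) fun i _ => lim_comp (ha0 i) (hc i), ?_, ?_⟩
    · filter_upwards [eventually_gt_atTop 1] with B hB
      have hN := N_pos (L := L) hB
      have hB0 : (0 : ℝ) ≤ B := by linarith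
      have e0 : (({y | H y * Ψ y ≤ B}.ncard : ℕ) : ℝ) =
          ∑ i ∈ range (k + 1), ∑ y ∈ (hfin' B).toFinset, tent h i (Ψ y) := by
        rw [hcard', sum_comm, sum_congr rfl fun y _ => hpart y]
        simp
      rw [e0, sum_div]
      constructor
      · refine sum_le_sum fun i _ => ?_
        refine div_le_div_of_nonneg_right ?_ hN.le
        rw [← sum_filter_ne_zero]
        refine sum_le_sum_of_subset_of_nonneg ?_ fun y _ _ => tent_nonneg _ _ _
        intro y hy
        simp only [mem_filter, Set.Finite.mem_toFinset, Set.mem_ofPred_eq] at hy ⊢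
        exact hsup _ _ (hb0 i) hB0 y (hsa i y hy.2).2 hy.1
      · refine sum_le_sum fun i _ => ?_
        refine div_le_div_of_nonneg_right ?_ hN.le
        rw [← sum_filter_ne_zero]
        refine sum_le_sum_of_subset_of_nonneg ?_ fun y _ _ => tent_nonneg _ _ _
        intro y hy
        simp only [mem_filter, Set.Finite.mem_toFinset, Set.mem_ofPred_eq] at hy ⊢
        exact hsub _ _ (ha0 i) hB0 y (hsa i y hy.2).1 hy.1
    · rw [← sum_sub_distrib]
      have e2 : ∀ i ∈ range (k + 1), c i / a i - c i / (a i + 2 * h) ≤ c i * (2 * h / m ^ 2) := by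
        intro i _
        have e3 : c i / a i - c i / (a i + 2 * h) = c i * (2 * h / (a i * (a i + 2 * h))) := by
          have h2 := (ha0 i).ne'
          have h3 := (hb0 i).ne'
          field_simp
          ring
        rw [e3]
        refine mul_le_mul_of_nonneg_left ?_ (hc0 i)
        refine div_le_div_of_nonneg_left (by positivity) (by positivity) ?_
        rw [sq]
        exact mul_le_mul (ham i) (by linarith [ham i]) hm.le (ha0 i).le
      refine (sum_le_sum e2).trans ?_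
      rw [← sum_mul, hcsum, hh]
      apply le_of_eq
      field_simp
  obtain ⟨c, hc⟩ := hconv
  refine ⟨c, ?_, hc⟩
  have h2 := lim_comp hM'pos h1'
  refine lt_of_lt_of_le (div_pos hc₁ hM'pos) (le_of_tendsto_of_tendsto h2 hc ?_)
  filter_upwards [eventually_gt_atTop 1] with B hB
  have hN := N_pos (L := L) hB
  have hB0 : (0 : ℝ) ≤ B := by linarith
  gcongr
  rw [hcard']
  refine card_le_card fun y hy => ?_
  simp only [Set.Finite.mem_toFinset, Set.mem_ofPred_eq] at hy ⊢
  exact hsup _ _ hM'pos hB0 y (hΨM' y) hy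

end Pool.Agent.Q224.EOW
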